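import Pool.Agent.J4.H88.MZ.Alg2

/-!
# Multiple zeta values: relations with algebraic coefficients

Notation, as in `ZeroOneLaw`: `Z k` is the rational span of the multiple zeta values of weight `k`;
`Hk k` is the part of weight `k` of `H = ℚ[π²] ⊗ (shuffle algebra on f_3, f_5, …)`, where the basis
element `(m, [a_1, …, a_n])` stands for `(π²)^m ⊗ f_{2 a_1 + 3} ⋯ f_{2 a_n + 3}`, `mulH` is the product,
`D k = dim H_k`, and `GradedIso Z` is the problem: there is an isomorphism of graded algebras
`⨁ Z k ≅ H`. `HasSurjection` is the statement that there is a surjective homomorphism of graded algebras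
`ψ : H → ⨁ Z k` (the theorem of Goncharov, Terasoma, Deligne-Goncharov). It is not assumed: it is a part
of the equivalent conditions.

Let `A` be the field of all real algebraic numbers, and let `dbar k` be the dimension over `A` of the
span over `A` of the multiple zeta values of weight `k` in `ℝ`.

Theorem.
(1) If the problem has a positive answer, then `dbar k = D_k` for all `k`: one linear relation with real
algebraic coefficients in one weight would give a negative answer. Elements of `Z_k` which are linearly
independent over `ℚ` are then linearly independent over `A`, and if a quotient `z / z'` of elements of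
`Z_k` is algebraic, then it is rational.
(2) The following are equivalent: the problem has a positive answer; there is a surjection `ψ` and
`dbar k = D_k` for all `k`; there is a surjection `ψ` and `dbar k = D_k` for infinitely many `k`; there
is a surjection `ψ` and the upper limit of `dbar k / D_k` is `1`. So independence over `ℚ` in infinitely
many weights gives independence over the field of all real algebraic numbers in all weights.
(3) If there is a surjection `ψ`, then `dbar k ≤ dim Z_k ≤ D_k` for all `k`, and if there is one linear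
relation with real algebraic coefficients in one weight `e` (`dbar e < D_e`), then
`limsup dim Z_k / D_k < 1`.

Proof. Suppose that `ψ` is injective, let `x`, `y` be of weight `k`, `ψ(x) = α ψ(y)` with `α` algebraic.
A polynomial equation of `α` gives a relation between products of powers of `x` and `y` in `H`, to which
we apply a derivation `T` of `H` (cutting off a first letter, or `∂ / ∂π²`): `ψ(T x) = α ψ(T y)`. By
induction on the weight `α` is rational. So `ℚ` is algebraically closed in the field of the quotients of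
elements of equal weight, and this field is linearly disjoint from `A`.
-/

set_option autoImplicit false

namespace Pool.Agent.Results.MP_f3dc73_nt.AlgebraicCoefficients

open Module Filter
open Pool.Agent.J4.H42.MZ Pool.Agent.J4.H88.MZ

/-- The multiple zeta value `ζ(n_1, …, n_r)`, the sum over `0 < k_1 < … < k_r` of
`k_1 ^ (-n_1) ⋯ k_r ^ (-n_r)`. -/
noncomputable def mzv (n : List ℕ) : ℝ :=
  ∑' k : {k : Fin n.length → ℕ // StrictMono k ∧ ∀ i, 0 < k i},
    ∏ i, (((k.1 i : ℕ) : ℝ) ^ n.get i)⁻¹

/-- The rational span of the multiple zeta values of weight `w`. -/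
noncomputable def Z (w : ℕ) : Submodule ℚ ℝ :=
  Submodule.span ℚ {x : ℝ | ∃ n : List ℕ, (∀ a ∈ n, 1 ≤ a) ∧ (∀ a ∈ n.getLast?, 2 ≤ a) ∧
    n.sum = w ∧ x = mzv n}

/-- `dim Z_k`. -/
noncomputable def d (k : ℕ) : ℕ := finrank ℚ (Z k)

/-- The field of real algebraic numbers. -/
noncomputable abbrev A : IntermediateField ℚ ℝ := algebraicClosure ℚ ℝ

/-- The dimension over `A` of the span over `A` of the multiple zeta values of weight `k`. -/
noncomputable def dbar (k : ℕ) : ℕ :=
  finrank A (Submodule.span A {x : ℝ | ∃ n : List ℕ, (∀ a ∈ n, 1 ≤ a) ∧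
    (∀ a ∈ n.getLast?, 2 ≤ a) ∧ n.sum = k ∧ x = mzv n})

/-- The upper limit of `f k / g k`. -/
noncomputable def upper (f g : ℕ → ℝ) : ℝ := limsup (fun k => f k / g k) atTop

lemma dbar_eq (k : ℕ) : dbar k = dA Z k := by
  have h : Submodule.span A {x : ℝ | ∃ n : List ℕ, (∀ a ∈ n, 1 ≤ a) ∧
      (∀ a ∈ n.getLast?, 2 ≤ a) ∧ n.sum = k ∧ x = mzv n} =
      Submodule.span A ((Z k : Set ℝ)) := by
    refine le_antisymm (Submodule.span_mono Submodule.subset_span) (Submodule.span_le.2 ?_)
    intro w hw
    have h1 : Z k ≤ (Submodule.span A {x : ℝ | ∃ n : List ℕ, (∀ a ∈ n, 1 ≤ a) ∧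
        (∀ a ∈ n.getLast?, 2 ≤ a) ∧ n.sum = k ∧ x = mzv n}).restrictScalars ℚ :=
      Submodule.span_le.2 Submodule.subset_span
    exact h1 hw
  unfold dbar dA
  rw [h]

/-- There is a surjective homomorphism of graded algebras `H → ⨁ Z k`. -/
def HasSurjection : Prop := ∃ ψ : HH →ₗ[ℚ] ℝ, IsSurjection Z ψ

/-- (1) From rational to algebraic coefficients. -/
def Independence : Prop :=
  GradedIso Z →
    (∀ k, dbar k = D k) ∧
    (∀ (k n : ℕ) (z : Fin n → ℝ), (∀ i, z i ∈ Z k) → LinearIndependent ℚ z →
      LinearIndependent A z) ∧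
    (∀ k, ∀ z ∈ Z k, ∀ z' ∈ Z k, z' ≠ 0 → IsAlgebraic ℚ (z / z') → ∃ q : ℚ, (q : ℝ) = z / z')

/-- (2) Equivalent forms of the problem. -/
def Equivalences : Prop :=
  List.TFAE [GradedIso Z,
    HasSurjection ∧ ∀ k, dbar k = D k,
    HasSurjection ∧ {k | dbar k = D k}.Infinite,
    HasSurjection ∧ upper (fun k => dbar k) (fun k => D k) = 1]

/-- (3) The cost of a relation with algebraic coefficients. -/
def Cost : Prop :=
  HasSurjection → (∀ k, dbar k ≤ d k ∧ d k ≤ D k) ∧
    ∀ e, dbar e < D e → upper (fun k => d k) (fun k => D k) < 1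

lemma hasSurjection_of_iso (h : GradedIso Z) : HasSurjection := by
  obtain ⟨Φ, h1, h2, h3⟩ := h
  exact ⟨Φ, h1, h2, fun w => (h3 w).1⟩

lemma independence : Independence := by
  intro hiso
  obtain ⟨ψ, hψ⟩ := hasSurjection_of_iso hiso
  have hinj : ∀ k, Ik ψ k = ⊥ := fun k => (dim_iff hψ k).1 (dims_of_iso hiso k)
  refine ⟨fun k => ?_, ?_, ?_⟩
  · rw [dbar_eq]
    exact dA_eq hψ hinj k
  · intro k n z hz hli
    rw [Fintype.linearIndependent_iff]
    intro g hg i
    have h1 := linInd_Z hψ hinj z hz hli (fun i => (g i : ℝ)) (fun i => by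
      have h2 := (g i).2
      rw [mem_algebraicClosure_iff] at h2
      exact h2.isIntegral) (by
      rw [← hg]
      exact Finset.sum_congr rfl fun i _ => rfl) i
    exact Subtype.ext h1
  · intro k z hz z' hz' hne halg
    rw [← hψ.map k, Submodule.mem_map] at hz hz'
    obtain ⟨x, hx, rfl⟩ := hz
    obtain ⟨y, hy, rfl⟩ := hz'
    exact quot_rat hψ hinj halg.isIntegral k x hx y hy (by rintro rfl; exact hne (map_zero _))
      (by field_simp)

theorem result : Independence ∧ Equivalences ∧ Cost := by
  refine ⟨independence, ?_, ?_⟩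
  · unfold Equivalences upper
    tfae_have 1 → 2 := fun h => ⟨hasSurjection_of_iso h, (independence h).1⟩
    tfae_have 2 → 3 := by
      rintro ⟨hs, h⟩
      have h1 : {k | dbar k = D k} = Set.univ := Set.eq_univ_of_forall h
      rw [h1]
      exact ⟨hs, Set.infinite_univ⟩
    tfae_have 3 → 1 := by
      rintro ⟨⟨ψ, hψ⟩, h⟩
      simp only [dbar_eq] at h
      exact (iso_iff_dA hψ).2 h
    tfae_have 1 → 4 := by
      intro h
      have hs := hasSurjection_of_iso h
      refine ⟨hs, ?_⟩
      obtain ⟨ψ, hψ⟩ := hs
      simp only [dbar_eq]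
      exact (iso_iff_dA_limsup hψ).1 h
    tfae_have 4 → 1 := by
      rintro ⟨⟨ψ, hψ⟩, h⟩
      simp only [dbar_eq] at h
      exact (iso_iff_dA_limsup hψ).2 h
    tfae_finish
  · rintro ⟨ψ, hψ⟩
    refine ⟨fun k => ⟨?_, Z_le hψ k⟩, ?_⟩
    · rw [dbar_eq]
      exact dA_le hψ k
    · intro e he
      have hno : ¬ GradedIso Z := by
        intro h
        have := (independence h).1 e
        omega
      have hrel : ∃ e, ∃ r ∈ Ik ψ e, r ≠ 0 := by
        by_contra h
        exact hno (iso_of_no_rel hψ h)
      obtain ⟨e', r, hr, hr0⟩ := hrel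
      obtain ⟨ρ, h1, h2, h3⟩ := exists_rho
      have h := limsup_rel hψ h1 h2 h3 hr hr0
      have h5 : 0 < (ρ ^ e')⁻¹ := by positivity
      unfold upper d
      linarith

end Pool.Agent.Results.MP_f3dc73_nt.AlgebraicCoefficients
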