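import Pool.Agent.J4.H88.MZ.Main

/-!
# Multiple zeta values: one Galois automorphism, infinitely many weights

Notation, as in `ZeroOneLaw`: `Z k` is the rational span of the multiple zeta values of weight `k`;
`Hk k` is the part of weight `k` of `H = ℚ[π²] ⊗ (shuffle algebra on f_3, f_5, …)`, where the basis
element `(m, [a_1, …, a_n])` stands for `(π²)^m ⊗ f_{2 a_1 + 3} ⋯ f_{2 a_n + 3}`, `mulH` is the product,
`D k = dim H_k`, and `GradedIso Z` is the problem: there is an isomorphism of graded algebras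
`⨁ Z k ≅ H`. `IsSurjection Z ψ` says that `ψ : H → ⨁ Z k` is a surjective homomorphism of graded
algebras. Such a `ψ` exists by the theorem of Goncharov, Terasoma, Deligne-Goncharov (and Brown); we do
not assume this: (1) to (4) are equivalences with the problem, without any hypothesis, and (5) is
about any such `ψ`. An element `r` of weight `k` with `ψ r = 0` is a linear relation of weight `k`;
there are such relations `r ≠ 0` iff `dim Z_k < D_k`.

The unipotent motivic Galois group acts on `H`: its rational points are the characters `χ` of the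
shuffle algebra, and `sig χ` maps `(π²)^m ⊗ w` to the sum of `χ(u) (π²)^m ⊗ v` over `w = u v`. Its
coordinates are the numbers `χ(f_3), χ(f_5), …`, which can be prescribed. The operator `der a` cuts
off the first letter if it is `f_{2a+3}`, and is zero on the other words; this is the infinitesimal
action. `Acts ψ T k` says that the operator `T` respects the relations of weight `k`: if
`r ∈ Hk k` and `ψ r = 0`, then `ψ` vanishes on all homogeneous components of `T r`; so `T` induces a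
map from `Z k` to `⨁ Z j`.

Theorem.
(1) Let `χ` be any character with `χ(f_m) ≠ 0` for all odd `m ≥ 3`. The problem has a positive answer
iff there is a surjective homomorphism of graded algebras `ψ : H → ⨁ Z k` such that `sig χ` respects
the relations of infinitely many weights.
(2) The problem has a positive answer iff there is such a `ψ` with infinitely many weights `k` for
which all `der a` respect the relations of weight `k`.
(3) Let `A`, `B` be sets of unipotent endomorphisms and of derivations of `H` (lowering the weight by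
at least two), not necessarily from the Galois group. The problem has a positive answer iff there is
such a `ψ` for which all elements of `A` and `B` respect the relations of infinitely many weights, and
there is no relation `x ≠ 0` (of any weight) which is fixed by all elements of `A` and killed by all
elements of `B`.
(4) The derivations `ad(∂_3)^i ∂_m`, `i ≥ 0`, `m ≥ 5` odd, generate the Lie ideal of the elements with
no `∂_3`-component. The problem has a positive answer iff `ζ(3) / π³` is transcendental and there is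
such a `ψ` with infinitely many weights `k` for which these derivations respect the relations of
weight `k`.
(5) Let `ψ` be any surjective homomorphism of graded algebras `H → ⨁ Z k`. One automorphism, one
weight: if `χ(f_m) ≠ 0` for all odd `m`, `3 ≤ m ≤ k`, then `dim Z_k = D_k` iff `sig χ` respects the
relations of weight `k`. If `χ(f_m) ≠ 0` for `3 ≤ m ≤ e` only and `sig χ` respects the relations of
one weight `k ≥ e + 2`, then `dim Z_e = D_e`. Also, `dim Z_k = D_k` iff all `der a` respect the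
relations of weight `k`. If `A`, `B` are as in (3) and respect the relations of one weight `k`, then
`dim Z_k = D_k` iff there is no relation `x ≠ 0` of a weight `j ≤ k`, `j ≠ k - 1`, which is fixed by all
elements of `A` and killed by all elements of `B`. The conditions in (1) to (4) hold for this `ψ` iff
they hold for one `ψ`.
(6) The characters in (1), (5) exist with arbitrary prescribed coordinates.

Proof. The kernel `P` of `ψ` is a homogeneous prime ideal, as the values are real numbers. Let `x ≠ 0`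
be of lowest weight `e` in `P`, `y` of weight `k - e` not in `P`. If `σ` respects the relations of
weight `k`, then `σ(x) σ(y) = σ(x y)` is in `P`, hence `σ(x) ∈ P`, and `σ(x) - x` has lower weight,
hence is zero. But only the powers of `π²` are fixed by `sig χ`, and `ψ` is not zero on them.
-/

set_option autoImplicit false

namespace Pool.Agent.Results.MP_f3dc73_nt.GaloisDescent

open Module
open Pool.Agent.J4.H42.MZ Pool.Agent.J4.H88.MZ

/-- The multiple zeta value `ζ(n_1, …, n_r)`, the sum over `0 < k_1 < … < k_r` of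
`k_1 ^ (-n_1) ⋯ k_r ^ (-n_r)`. -/
noncomputable def mzv (n : List ℕ) : ℝ :=
  ∑' k : {k : Fin n.length → ℕ // StrictMono k ∧ ∀ i, 0 < k i},
    ∏ i, (((k.1 i : ℕ) : ℝ) ^ n.get i)⁻¹

/-- The rational span of the multiple zeta values of weight `w`. -/
noncomputable def Z (w : ℕ) : Submodule ℚ ℝ :=
  Submodule.span ℚ {x : ℝ | ∃ n : List ℕ, (∀ a ∈ n, 1 ≤ a) ∧ (∀ a ∈ n.getLast?, 2 ≤ a) ∧
    n.sum = w ∧ x = mzv n}

/-- `dim Z_k`. -/
noncomputable def d (k : ℕ) : ℕ := finrank ℚ (Z k)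

lemma mzv_one (s : ℕ) : mzv [s] = ∑' m : ℕ, (((m + 1 : ℕ) : ℝ) ^ s)⁻¹ := by
  let e : ℕ ≃ {k : Fin [s].length → ℕ // StrictMono k ∧ ∀ i, 0 < k i} :=
    { toFun := fun m => ⟨fun _ => m + 1, by
        have : Subsingleton (Fin [s].length) := inferInstanceAs (Subsingleton (Fin 1))
        exact Subsingleton.strictMono _, fun _ => Nat.succ_pos m⟩
      invFun := fun k => k.1 ⟨0, by simp⟩ - 1
      left_inv := fun m => rfl
      right_inv := fun k => by
        apply Subtype.ext
        funext i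
        have h1 : i = ⟨0, by simp⟩ := by
          have : Subsingleton (Fin [s].length) := inferInstanceAs (Subsingleton (Fin 1))
          exact Subsingleton.elim _ _
        have h2 := k.2.2 i
        rw [h1] at h2 ⊢
        simp only
        omega }
  unfold mzv
  rw [← e.tsum_eq]
  refine tsum_congr fun m => ?_
  simp only [List.get_eq_getElem]
  exact Fin.prod_univ_one fun i : Fin 1 => ((((m + 1 : ℕ) : ℕ) : ℝ) ^ [s][(i : ℕ)])⁻¹

lemma mzv_pos (s : ℕ) (hs : 2 ≤ s) : 0 < mzv [s] := by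
  rw [mzv_one]
  have h1 : Summable fun m : ℕ => (((m + 1 : ℕ) : ℝ) ^ s)⁻¹ := by
    have h2 : Summable fun m : ℕ => ((m : ℝ) ^ s)⁻¹ := Real.summable_nat_pow_inv.2 (by omega)
    exact (summable_nat_add_iff 1).2 h2
  exact h1.tsum_pos (fun m => by positivity) 0 (by positivity)

lemma mzv_mem (s : ℕ) (hs : 2 ≤ s) : mzv [s] ∈ Z s := by
  refine Submodule.subset_span ⟨[s], ?_, ?_, by simp, rfl⟩
  · intro a ha
    rw [List.mem_singleton] at ha
    omega
  · intro a ha
    simp at ha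
    omega

lemma mzv_two : mzv [2] = Real.pi ^ 2 / 6 := by
  rw [mzv_one]
  have h1 := hasSum_zeta_two
  have h2 := (hasSum_nat_add_iff' 1).2 h1
  have h3 : (fun n : ℕ => (1 : ℝ) / ((n + 1 : ℕ) : ℝ) ^ 2) = fun m : ℕ => (((m + 1 : ℕ) : ℝ) ^ 2)⁻¹ := by
    funext m
    rw [one_div]
  rw [h3] at h2
  rw [h2.tsum_eq]
  simp

lemma iso_psi (h : GradedIso Z) : ∃ ψ : HH →ₗ[ℚ] ℝ, IsSurjection Z ψ ∧ ∀ k, Ik ψ k = ⊥ := by
  obtain ⟨Φ, h1, h2, h3⟩ := h
  refine ⟨Φ, ⟨h1, h2, fun w => (h3 w).1⟩, fun k => ?_⟩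
  rw [Submodule.eq_bot_iff]
  intro x hx
  exact (h3 k).2 x (mem_Ik.1 hx).1 (mem_Ik.1 hx).2

lemma nonzero {ψ : HH →ₗ[ℚ] ℝ} (hψ : IsSurjection Z ψ) : ∀ n, 2 ≤ n → ∃ y ∈ Hk n, ψ y ≠ 0 := by
  intro n hn
  have h1 := mzv_mem n hn
  rw [← hψ.map n, Submodule.mem_map] at h1
  obtain ⟨y, hy, h2⟩ := h1
  exact ⟨y, hy, by rw [h2]; exact (mzv_pos n hn).ne'⟩

/-- The weights `k` for which the derivations `ad(∂_3)^i ∂_m`, `m ≥ 5`, respect the relations. -/
def idealWeights (ψ : HH →ₗ[ℚ] ℝ) : Set ℕ := {k | ∀ i a, 1 ≤ a → Acts ψ (adn i a) k}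

lemma ideal_iff {ψ : HH →ₗ[ℚ] ℝ} (hψ : IsSurjection Z ψ) (hinf : (idealWeights ψ).Infinite) :
    GradedIso Z ↔ Transcendental ℚ (mzv [3] / Real.pi ^ 3) := by
  have hZ := nonzero hψ
  have h2 : mzv [2] ≠ 0 := (mzv_pos 2 le_rfl).ne'
  have h3 : mzv [3] ≠ 0 := (mzv_pos 3 (by norm_num)).ne'
  obtain ⟨q2, hq2, e2⟩ := ratio hψ uniq_two (mzv_mem 2 le_rfl) h2
  obtain ⟨r3, hr3, e3⟩ := ratio hψ uniq_three (mzv_mem 3 (by norm_num)) h3
  rw [mzv_two] at e2
  have e2' : ψ (Finsupp.single (1, []) 1) = ((q2 / 6 : ℚ) : ℝ) * Real.pi ^ 2 := by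
    rw [e2]
    push_cast
    ring
  rw [← trans_iff hψ (div_ne_zero hq2 (by norm_num)) hr3 e2' e3]
  constructor
  · intro hiso j x hx _ hx0
    have h4 := (dim_iff hψ j).1 (dims_of_iso hiso j)
    have h5 : x ∈ Ik ψ j := mem_Ik.2 ⟨hx, hx0⟩
    rwa [h4, Submodule.mem_bot] at h5
  · intro h
    rw [iso_iff_infinite hψ]
    refine hinf.mono fun k hk => ?_
    exact (weight_iff_three hψ hZ hk).2 fun j _ _ x hx hx3 hx0 => h j x hx hx3 hx0

/-- (1) One automorphism, infinitely many weights. -/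
def OneAutomorphism : Prop :=
  ∀ χ : List ℕ → ℚ, IsChar χ → (∀ a, χ [a] ≠ 0) →
    (GradedIso Z ↔ ∃ ψ, IsSurjection Z ψ ∧ {k | Acts ψ (sig χ) k}.Infinite)

/-- (2) The derivations. -/
def Derivations : Prop :=
  GradedIso Z ↔ ∃ ψ, IsSurjection Z ψ ∧ {k | ∀ a, Acts ψ (der a) k}.Infinite

/-- (3) Families of endomorphisms and derivations. -/
def Families : Prop :=
  ∀ A B : Set (HH →ₗ[ℚ] HH), (∀ T ∈ A, IsUni T) → (∀ T ∈ B, ∃ δ, IsDer T δ) →
    (GradedIso Z ↔ ∃ ψ, IsSurjection Z ψ ∧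
      {k | (∀ T ∈ A, Acts ψ T k) ∧ ∀ T ∈ B, Acts ψ T k}.Infinite ∧
      ∀ j, ∀ x ∈ Hk j, (∀ T ∈ A, T x = x) → (∀ T ∈ B, T x = 0) → ψ x = 0 → x = 0)

/-- (4) The Lie ideal and `ζ(3) / π³`. -/
def Ideal : Prop :=
  GradedIso Z ↔ Transcendental ℚ (mzv [3] / Real.pi ^ 3) ∧
    ∃ ψ, IsSurjection Z ψ ∧ (idealWeights ψ).Infinite

/-- (5) Any surjection: one weight, and infinitely many weights. -/
structure AnySurjection (ψ : HH →ₗ[ℚ] ℝ) : Prop where
  oneWeight : ∀ χ : List ℕ → ℚ, IsChar χ → ∀ k, (∀ a, 2 * a + 3 ≤ k → χ [a] ≠ 0) →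
    (d k = D k ↔ Acts ψ (sig χ) k)
  lowerWeight : ∀ χ : List ℕ → ℚ, IsChar χ → ∀ e k, (∀ a, 2 * a + 3 ≤ e → χ [a] ≠ 0) → e + 2 ≤ k →
    Acts ψ (sig χ) k → d e = D e
  derWeight : ∀ k, d k = D k ↔ ∀ a, Acts ψ (der a) k
  famWeight : ∀ A B : Set (HH →ₗ[ℚ] HH), (∀ T ∈ A, IsUni T) → (∀ T ∈ B, ∃ δ, IsDer T δ) →
    ∀ k, (∀ T ∈ A, Acts ψ T k) → (∀ T ∈ B, Acts ψ T k) →
      (d k = D k ↔ ∀ j, j ≤ k → j + 1 ≠ k → ∀ x ∈ Hk j, (∀ T ∈ A, T x = x) →
        (∀ T ∈ B, T x = 0) → ψ x = 0 → x = 0)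
  oneInf : ∀ χ : List ℕ → ℚ, IsChar χ → (∀ a, χ [a] ≠ 0) →
    (GradedIso Z ↔ {k | Acts ψ (sig χ) k}.Infinite)
  derInf : GradedIso Z ↔ {k | ∀ a, Acts ψ (der a) k}.Infinite
  famInf : ∀ A B : Set (HH →ₗ[ℚ] HH), (∀ T ∈ A, IsUni T) → (∀ T ∈ B, ∃ δ, IsDer T δ) →
    (GradedIso Z ↔ {k | (∀ T ∈ A, Acts ψ T k) ∧ ∀ T ∈ B, Acts ψ T k}.Infinite ∧
      ∀ j, ∀ x ∈ Hk j, (∀ T ∈ A, T x = x) → (∀ T ∈ B, T x = 0) → ψ x = 0 → x = 0)
  idealInf : GradedIso Z ↔ Transcendental ℚ (mzv [3] / Real.pi ^ 3) ∧ (idealWeights ψ).Infinite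

lemma all_weights {P : ℕ → Prop} (h : ∀ k, P k) : {k | P k}.Infinite := by
  have h1 : {k | P k} = Set.univ := Set.eq_univ_of_forall h
  rw [h1]
  exact Set.infinite_univ

lemma any_surjection {ψ : HH →ₗ[ℚ] ℝ} (hψ : IsSurjection Z ψ) : AnySurjection ψ := by
  have hZ := nonzero hψ
  have hbot : GradedIso Z → ∀ k, Ik ψ k = ⊥ := fun h k => (dim_iff hψ k).1 (dims_of_iso h k)
  refine ⟨?_, ?_, weight_iff_der hψ hZ, ?_, ?_, iso_iff_der hψ hZ, ?_, ?_⟩
  · intro χ hχ k hk
    exact weight_iff hψ hZ hχ hk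
  · intro χ hχ e k he hek hact
    exact one_weight hψ hZ hχ he (Or.inr hek) hact
  · intro A B hA hB k h1 h2
    exact family hψ hZ A B (fun T hT => ⟨hA T hT, h1 T hT⟩) fun T hT => ⟨hB T hT, h2 T hT⟩
  · intro χ hχ hne
    exact iso_iff_sig hψ hZ hχ hne
  · intro A B hA hB
    constructor
    · intro h
      have hb := hbot h
      refine ⟨all_weights fun k => ⟨fun T _ => acts_of_bot (hb k),
        fun T _ => acts_of_bot (hb k)⟩, fun j x hx _ _ hx0 => ?_⟩
      have h5 : x ∈ Ik ψ j := mem_Ik.2 ⟨hx, hx0⟩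
      rwa [hb j, Submodule.mem_bot] at h5
    · rintro ⟨h1, h2⟩
      exact (family_inf hψ hZ A B hA hB h1).2 h2
  · constructor
    · intro h
      have hb := hbot h
      have h1 : (idealWeights ψ).Infinite :=
        all_weights fun k i a _ => acts_of_bot (hb k)
      exact ⟨(ideal_iff hψ h1).1 h, h1⟩
    · rintro ⟨h1, h2⟩
      exact (ideal_iff hψ h2).2 h1

theorem result :
    OneAutomorphism ∧ Derivations ∧ Families ∧ Ideal ∧
      (∀ ψ : HH →ₗ[ℚ] ℝ, IsSurjection Z ψ → AnySurjection ψ) ∧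
      (∀ c : ℕ → ℚ, ∃ χ : List ℕ → ℚ, IsChar χ ∧ ∀ a, χ [a] = c a) := by
  refine ⟨?_, ?_, ?_, ?_, fun ψ hψ => any_surjection hψ, ?_⟩
  · intro χ hχ hne
    constructor
    · intro h
      obtain ⟨ψ, hψ, _⟩ := iso_psi h
      exact ⟨ψ, hψ, ((any_surjection hψ).oneInf χ hχ hne).1 h⟩
    · rintro ⟨ψ, hψ, h⟩
      exact ((any_surjection hψ).oneInf χ hχ hne).2 h
  · constructor
    · intro h
      obtain ⟨ψ, hψ, _⟩ := iso_psi h
      exact ⟨ψ, hψ, (any_surjection hψ).derInf.1 h⟩
    · rintro ⟨ψ, hψ, h⟩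
      exact (any_surjection hψ).derInf.2 h
  · intro A B hA hB
    constructor
    · intro h
      obtain ⟨ψ, hψ, _⟩ := iso_psi h
      exact ⟨ψ, hψ, ((any_surjection hψ).famInf A B hA hB).1 h⟩
    · rintro ⟨ψ, hψ, h⟩
      exact ((any_surjection hψ).famInf A B hA hB).2 h
  · constructor
    · intro h
      obtain ⟨ψ, hψ, _⟩ := iso_psi h
      obtain ⟨h1, h2⟩ := (any_surjection hψ).idealInf.1 h
      exact ⟨h1, ψ, hψ, h2⟩
    · rintro ⟨h1, ψ, hψ, h2⟩
      exact (any_surjection hψ).idealInf.2 ⟨h1, h2⟩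
  · intro c
    exact ⟨expc c, expc_char c, expc_one c⟩

end Pool.Agent.Results.MP_f3dc73_nt.GaloisDescent
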