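import Pool.Agent.J4.H88.MZ.Norm

/-!
# Multiple zeta values divided by powers of `π`

Notation, as in `ZeroOneLaw`: `Z k` is the rational span of the multiple zeta values of weight `k`;
`Hk k` is the part of weight `k` of `H = ℚ[π²] ⊗ (shuffle algebra on f_3, f_5, …)`, where the basis
element `(m, [a_1, …, a_n])` stands for `(π²)^m ⊗ f_{2 a_1 + 3} ⋯ f_{2 a_n + 3}`, `mulH` is the product,
`D k = dim H_k`, and `GradedIso Z` is the problem: there is an isomorphism of graded algebras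
`⨁ Z k ≅ H`. `IsSurjection Z ψ` says that `ψ : H → ⨁ Z k` is a surjective homomorphism of graded
algebras. Such a `ψ` exists by the theorem of Goncharov, Terasoma, Deligne-Goncharov; we do not
assume this: (1) and (2) have no hypothesis, and (3), (4) are about any such `ψ`.

The problem is about an external direct sum: nothing is said on relations between numbers of
different weights. Here we divide by powers of `π` and consider all weights together. Let `V K` be the
rational span in `ℝ` of the numbers `ζ(n_1, …, n_r) / π^(n_1 + … + n_r)` of all weights `≤ K`, and let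
`t(w) = ψ(w) / π^|w|` for a word `w` in `f_3, f_5, …` of weight `|w|`.

Theorem.
(1) The following are equivalent: the problem has a positive answer; there is a surjective
homomorphism of graded algebras `ψ : H → ⨁ Z k` for which the real numbers `t(w)`, `w` any word, are
linearly independent over `ℚ`; there is such a `ψ` and `dim V_K = D_{K+2}` for infinitely many `K`; there
is such a `ψ` and the upper limit of `dim V_K / D_{K+2}` is `1`.
(2) If the problem has a positive answer, then `dim V_K = D_{K+2}` for all `K`: one unexpected relation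
between the numbers `ζ(n_1, …, n_r) / π^(n_1 + … + n_r)` of different weights, even and odd ones
together, disproves it.
(3) Let `ψ` be any surjective homomorphism of graded algebras `H → ⨁ Z k`. Then `dim V_K ≤ D_{K+2}` for
all `K`; `V_K` is spanned by the `t(w)`, `|w| ≤ K`, and `t(u) t(v)` is the sum of the `t(w)` over the
shuffles `w` of `u`, `v`, so that the union `V` of the `V_K` is a subring of `ℝ`, a quotient of the
shuffle algebra on `f_3, f_5, …` without grading. The problem has a positive answer iff the `t(w)` are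
linearly independent, so iff `V` is the shuffle algebra.
(4) If there is such a `ψ` and `dim V_e < D_{e+2}`, then `dim Z_{2e} < D_{2e}`, and
`dim V_{K+2e} ≤ D_{K+2e+2} - D_{K+2}` for all `K`. If there is such a `ψ` and `dim Z_e < D_e`, then
`dim V_{K+e} ≤ D_{K+e+2} - D_{K+2}` for all `K`. The upper limit of `dim V_K / D_{K+2}` is then at
most `1 - ρ^(-2e)`, respectively `1 - ρ^(-e)`, `ρ` the plastic number.

Proof. A relation of mixed weights has the form `φ(x) + φ(y) = 0` with `x`, `y` of weights `e`, `e - 1`,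
where `φ` divides by the power of `π`. Let `φ(π²) = q`. Then `q x² - π² y²` is a relation of weight
`2e`, and it is not zero in `H`, as the exponents of `π²` in the leading monomials of `x²` and `π² y²`
have different parities.
-/

set_option autoImplicit false

namespace Pool.Agent.Results.MP_f3dc73_nt.NormalizedValues

open Module Filter
open Pool.Agent.J4.H42.MZ Pool.Agent.J4.H88.MZ

/-- The multiple zeta value `ζ(n_1, …, n_r)`, the sum over `0 < k_1 < … < k_r` of
`k_1 ^ (-n_1) ⋯ k_r ^ (-n_r)`. -/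
noncomputable def mzv (n : List ℕ) : ℝ :=
  ∑' k : {k : Fin n.length → ℕ // StrictMono k ∧ ∀ i, 0 < k i},
    ∏ i, (((k.1 i : ℕ) : ℝ) ^ n.get i)⁻¹

/-- The rational span of the multiple zeta values of weight `w`. -/
noncomputable def Z (w : ℕ) : Submodule ℚ ℝ :=
  Submodule.span ℚ {x : ℝ | ∃ n : List ℕ, (∀ a ∈ n, 1 ≤ a) ∧ (∀ a ∈ n.getLast?, 2 ≤ a) ∧
    n.sum = w ∧ x = mzv n}

/-- `dim Z_k`. -/
noncomputable def d (k : ℕ) : ℕ := finrank ℚ (Z k)

/-- The rational span of the multiple zeta values of all weights `≤ K`, divided by the power of `π`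
whose exponent is the weight. -/
noncomputable def V (K : ℕ) : Submodule ℚ ℝ :=
  Submodule.span ℚ {x : ℝ | ∃ n : List ℕ, (∀ a ∈ n, 1 ≤ a) ∧ (∀ a ∈ n.getLast?, 2 ≤ a) ∧
    n.sum ≤ K ∧ x = mzv n / Real.pi ^ n.sum}

/-- `dim V_K`. -/
noncomputable def v (K : ℕ) : ℕ := finrank ℚ (V K)

/-- `t(w) = ψ(w) / π^|w|`, where `w = [a_1, …, a_n]` stands for `f_{2 a_1 + 3} ⋯ f_{2 a_n + 3}`, of
weight `|w| = wl w`. -/
noncomputable def t (ψ : HH →ₗ[ℚ] ℝ) (w : List ℕ) : ℝ :=
  ψ (Finsupp.single (0, w) 1) / Real.pi ^ wl w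

/-- The upper limit of `f k / g k`. -/
noncomputable def upper (f g : ℕ → ℝ) : ℝ := limsup (fun k => f k / g k) atTop

lemma mzv_one (s : ℕ) : mzv [s] = ∑' m : ℕ, (((m + 1 : ℕ) : ℝ) ^ s)⁻¹ := by
  let e : ℕ ≃ {k : Fin [s].length → ℕ // StrictMono k ∧ ∀ i, 0 < k i} :=
    { toFun := fun m => ⟨fun _ => m + 1, by
        have : Subsingleton (Fin [s].length) := inferInstanceAs (Subsingleton (Fin 1))
        exact Subsingleton.strictMono _, fun _ => Nat.succ_pos m⟩
      invFun := fun k => k.1 ⟨0, by simp⟩ - 1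
      left_inv := fun m => rfl
      right_inv := fun k => by
        apply Subtype.ext
        funext i
        have h1 : i = ⟨0, by simp⟩ := by
          have : Subsingleton (Fin [s].length) := inferInstanceAs (Subsingleton (Fin 1))
          exact Subsingleton.elim _ _
        have h2 := k.2.2 i
        rw [h1] at h2 ⊢
        simp only
        omega }
  unfold mzv
  rw [← e.tsum_eq]
  refine tsum_congr fun m => ?_
  simp only [List.get_eq_getElem]
  exact Fin.prod_univ_one fun i : Fin 1 => ((((m + 1 : ℕ) : ℕ) : ℝ) ^ [s][(i : ℕ)])⁻¹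

lemma mzv_two : mzv [2] = Real.pi ^ 2 / 6 := by
  rw [mzv_one]
  have h1 := hasSum_zeta_two
  have h2 := (hasSum_nat_add_iff' 1).2 h1
  have h3 : (fun n : ℕ => (1 : ℝ) / ((n + 1 : ℕ) : ℝ) ^ 2) = fun m : ℕ => (((m + 1 : ℕ) : ℝ) ^ 2)⁻¹ := by
    funext m
    rw [one_div]
  rw [h3] at h2
  rw [h2.tsum_eq]
  simp

lemma mzv_two_mem : mzv [2] ∈ Z 2 := by
  refine Submodule.subset_span ⟨[2], ?_, ?_, by simp, rfl⟩
  · intro a ha
    rw [List.mem_singleton] at ha
    omega
  · intro a ha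
    simp at ha
    omega

lemma V_eq {ψ : HH →ₗ[ℚ] ℝ} (hψ : IsSurjection Z ψ) {q : ℚ} (hq : q ≠ 0)
    (e2 : ψ ff = q * Real.pi ^ 2) (K : ℕ) : V K = VK ψ K := by
  refine le_antisymm (Submodule.span_le.2 ?_) (VK_le_span hψ K _ ?_)
  · rintro _ ⟨n, h1, h2, h3, rfl⟩
    exact mem_VK hψ hq e2 h3 (Submodule.subset_span ⟨n, h1, h2, rfl, rfl⟩)
  · intro k hk z hz
    have h1 : Z k ≤ (V K).comap (LinearMap.mulRight ℚ ((Real.pi ^ k)⁻¹ : ℝ)) := by
      refine Submodule.span_le.2 ?_
      rintro _ ⟨n, h1, h2, h3, rfl⟩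
      change _ ∈ V K
      rw [LinearMap.mulRight_apply, ← div_eq_mul_inv]
      exact Submodule.subset_span ⟨n, h1, h2, by omega, by rw [h3]⟩
    have h2 := h1 hz
    change _ ∈ V K at h2
    rwa [LinearMap.mulRight_apply, ← div_eq_mul_inv] at h2

/-- There is a surjective homomorphism of graded algebras from `H` to the external direct sum of the
spaces `Z k`. -/
def HasSurj : Prop := ∃ ψ : HH →ₗ[ℚ] ℝ, IsSurjection Z ψ

/-- (1) Equivalent forms of the problem. -/
def Equivalences : Prop :=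
  List.TFAE [GradedIso Z,
    ∃ ψ, IsSurjection Z ψ ∧ LinearIndependent ℚ (t ψ),
    HasSurj ∧ {K | v K = D (K + 2)}.Infinite,
    HasSurj ∧ upper (fun K => v K) (fun K => D (K + 2)) = 1]

/-- (3) Bounds, generators, products and linear independence, for any surjection. -/
def Structure (ψ : HH →ₗ[ℚ] ℝ) : Prop :=
  (∀ K, v K ≤ D (K + 2)) ∧ (∀ K, V K = Submodule.span ℚ (t ψ '' {w | wl w ≤ K})) ∧
    (∀ u w, t ψ u * t ψ w = ((shuf u w).map (t ψ)).sum) ∧
    (GradedIso Z ↔ LinearIndependent ℚ (t ψ))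

/-- (4) The cost of a relation. -/
def Cost : Prop :=
  ∃ ρ : ℝ, 1 < ρ ∧ ρ ^ 3 = ρ + 1 ∧
    (∀ e, v e < D (e + 2) → d (2 * e) < D (2 * e) ∧
      (∀ K, v (K + 2 * e) + D (K + 2) ≤ D (K + 2 * e + 2)) ∧
      upper (fun K => v K) (fun K => D (K + 2)) ≤ 1 - (ρ ^ (2 * e))⁻¹) ∧
    (∀ e, d e < D e → (∀ K, v (K + e) + D (K + 2) ≤ D (K + e + 2)) ∧
      upper (fun K => v K) (fun K => D (K + 2)) ≤ 1 - (ρ ^ e)⁻¹)

lemma iso_psi (h : GradedIso Z) : ∃ ψ : HH →ₗ[ℚ] ℝ, IsSurjection Z ψ := by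
  obtain ⟨Φ, h1, h2, h3⟩ := h
  exact ⟨Φ, ⟨h1, h2, fun w => (h3 w).1⟩⟩

lemma of_surj {ψ : HH →ₗ[ℚ] ℝ} (hψ : IsSurjection Z ψ) :
    Structure ψ ∧ (GradedIso Z ↔ {K | v K = D (K + 2)}.Infinite) ∧
      (GradedIso Z ↔ upper (fun K => v K) (fun K => D (K + 2)) = 1) ∧ Cost ∧
      (GradedIso Z → ∀ K, v K = D (K + 2)) := by
  have h2 : mzv [2] ≠ 0 := by
    rw [mzv_two]
    have := Real.pi_ne_zero
    positivity
  obtain ⟨q2, hq2, e2⟩ := ratio hψ uniq_two mzv_two_mem h2
  rw [mzv_two] at e2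
  obtain ⟨q, hq, e2'⟩ : ∃ q : ℚ, q ≠ 0 ∧ ψ ff = q * Real.pi ^ 2 := by
    refine ⟨q2 / 6, div_ne_zero hq2 (by norm_num), ?_⟩
    unfold ff
    rw [e2]
    push_cast
    ring
  have hV : ∀ K, V K = VK ψ K := V_eq hψ hq e2'
  have hv : ∀ K, v K = finrank ℚ (VK ψ K) := fun K => by
    unfold v
    rw [hV]
  refine ⟨⟨?_, ?_, ?_, ?_⟩, ?_, ?_, ?_, ?_⟩
  · intro K
    rw [hv]
    exact VK_le K
  · intro K
    rw [hV]
    exact VK_eq hψ hq e2' K
  · exact tw_mul hψ
  · exact iso_iff_linInd hψ hq e2'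
  · simp only [hv]
    exact iso_iff_VK hψ hq e2'
  · unfold upper
    simp only [hv]
    exact iso_iff_VK_limsup hψ hq e2'
  · obtain ⟨ρ, h1, h2, h3⟩ := exists_rho
    refine ⟨ρ, h1, h3, fun e he => ?_, fun e he => ?_⟩
    · rw [hv] at he
      obtain ⟨r, hr, hr0⟩ := rel_of_VK hψ hq e2' he
      refine ⟨?_, fun K => ?_, ?_⟩
      · have h4 := gap_rel hψ hr hr0 0
        rw [zero_add] at h4
        have h5 : D 0 = 1 := rfl
        unfold d
        omega
      · rw [hv]
        exact cost_of_rel hψ hr hr0 K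
      · unfold upper
        simp only [hv]
        exact VK_limsup_le hψ h1 h2 h3 hr hr0
    · obtain ⟨r, hr, hr0⟩ := rel_of_lt hψ he
      refine ⟨fun K => ?_, ?_⟩
      · rw [hv]
        exact cost_of_rel hψ hr hr0 K
      · unfold upper
        simp only [hv]
        exact VK_limsup_le hψ h1 h2 h3 hr hr0
  · intro h K
    rw [hv]
    by_contra hne
    have hlt : finrank ℚ (VK ψ K) < D (K + 2) := lt_of_le_of_ne (VK_le K) hne
    obtain ⟨r, hr, hr0⟩ := rel_of_VK hψ hq e2' hlt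
    have h2 := (dim_iff hψ (2 * K)).1 (dims_of_iso h _)
    rw [h2, Submodule.mem_bot] at hr
    exact hr0 hr

theorem result :
    Equivalences ∧ (GradedIso Z → ∀ K, v K = D (K + 2)) ∧
      (∀ ψ : HH →ₗ[ℚ] ℝ, IsSurjection Z ψ → Structure ψ) ∧ (HasSurj → Cost) := by
  refine ⟨?_, ?_, fun ψ hψ => (of_surj hψ).1, ?_⟩
  · unfold Equivalences
    tfae_have 1 → 2 := fun h => by
      obtain ⟨ψ, hψ⟩ := iso_psi h
      exact ⟨ψ, hψ, (of_surj hψ).1.2.2.2.1 h⟩
    tfae_have 2 → 1 := fun ⟨ψ, hψ, h⟩ => (of_surj hψ).1.2.2.2.2 h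
    tfae_have 1 → 3 := fun h => by
      obtain ⟨ψ, hψ⟩ := iso_psi h
      exact ⟨⟨ψ, hψ⟩, (of_surj hψ).2.1.1 h⟩
    tfae_have 3 → 1 := fun ⟨⟨ψ, hψ⟩, h⟩ => (of_surj hψ).2.1.2 h
    tfae_have 1 → 4 := fun h => by
      obtain ⟨ψ, hψ⟩ := iso_psi h
      exact ⟨⟨ψ, hψ⟩, (of_surj hψ).2.2.1.1 h⟩
    tfae_have 4 → 1 := fun ⟨⟨ψ, hψ⟩, h⟩ => (of_surj hψ).2.2.1.2 h
    tfae_finish
  · intro h
    obtain ⟨ψ, hψ⟩ := iso_psi h
    exact (of_surj hψ).2.2.2.2 h
  · rintro ⟨ψ, hψ⟩
    exact (of_surj hψ).2.2.2.1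

end Pool.Agent.Results.MP_f3dc73_nt.NormalizedValues
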