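import Pool.Agent.J4.H42.MZ.Main

/-!
# A zero-one law for the dimensions of the spaces of multiple zeta values

Notation: `Z k` is the rational span of the multiple zeta values of weight `k`; `Hk k` is the part of
weight `k` of `H = ℚ[π²] ⊗ (shuffle algebra on f_3, f_5, …)`, where the basis element
`(m, [a_1, …, a_n])` stands for `(π²)^m ⊗ f_{2 a_1 + 3} ⋯ f_{2 a_n + 3}`; the product `mulH` is given
by shuffling words (`shuf u v` is the list of the shuffles, with multiplicities) and adding the
exponents of `π²`. `D k = dim H_k`: `D 0 = 1`, `D 1 = 0`, `D 2 = 1`, `D (k + 3) = D (k + 1) + D k`.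
`GradedIso Z` is the problem: there is an isomorphism of graded algebras `⨁ Z k ≅ H`.

Nothing is assumed. `HasSurj` is the statement that there is a surjective homomorphism of graded
algebras `ψ : H → ⨁ Z k`; this is a theorem of Goncharov, Terasoma and Deligne-Goncharov (the source of
the bound `dim Z_k ≤ D_k`), which is neither proved nor assumed here: it appears as one half of the
conditions which are equivalent to the problem (and it follows from a positive answer). In the same way
Brown's theorem, that `Z k` is spanned by the Hoffman elements `ζ(n_1, …, n_r)` with all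
`n_i ∈ {2, 3}`, is a condition in the last part of (1) only.

Theorem.
(1) The problem has a positive answer iff `HasSurj` holds and `dim Z_k = D_k` for infinitely many `k`,
iff `HasSurj` holds and `limsup dim Z_k / D_k = 1`. It has a positive answer if `HasSurj` holds and the
Hoffman elements of weight `k` are linearly independent for infinitely many `k`; conversely, if it has a
positive answer and the Hoffman elements span, they are linearly independent in all weights.
(2) The same holds modulo any nonzero `z ∈ Z_m`, `m ≥ 2`, for instance modulo `ζ(2)` (where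
`D_k - D_{k-2} = D_{k-3}` is the dimension conjectured by Kaneko and Zagier for the finite or
symmetric multiple zeta values) or modulo `ζ(3)`: the answer is positive iff `HasSurj` holds and
`dim Z_{k+m} / z Z_k = D_{k+m} - D_k` for infinitely many `k`, iff `HasSurj` holds and the upper limit of
the ratio is `1`.
(3) A relation in weight `e` costs `D_{k-e}` dimensions in every weight `k ≥ e`: if `HasSurj` holds and `dim Z_e < D_e`,
then `dim Z_k ≤ D_k - D_{k-e}`, and the upper limit of `dim Z_k / D_k` is at most `1 - ρ^(-e)`, where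
`ρ = 1.3247…` is the plastic number.
(4) More generally, let `ψ` be any surjective homomorphism of graded algebras from `H` onto `⨁ Z k`
and let `A` be any graded subalgebra of `H`, for instance the algebra generated by
`π², f_3, f_5, …` (whose image is the algebra generated by all values of Riemann's zeta function) or by
the elements of bounded weight, and let `a_k = dim A_k`, `b_k = dim ψ(A_k)`. If `b_e < a_e`, then
`b_k ≤ a_k - a_{k-e}` for all `k ≥ e`; if `a_{k+1} / a_k` converges to `λ ≥ 1`, then
`limsup b_k / a_k ≤ 1 - λ^(-e)`, which is `0` for `λ = 1`: either `b_k = a_k` for all `k` or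
`b_k / a_k → 0`; if `a_k` grows subexponentially, then `liminf b_k / a_k = 0`.

Proof. In `H` leading monomials (smallest power of `π²`, then lexicographically smallest word) are
multiplicative for the operation that takes two words to their smallest shuffle, so that `H` has no zero divisors; the exponent of
`π²` and the number of initial letters `f_3` of the leading monomials are additive. Hence a relation
`r` gives the relations `h r`, and a relation for which the exponent (or the number of letters) of the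
leading monomial is minimal gives relations which are independent of `π²` times (or `f_3` times) the
relations of smaller weight.
-/

set_option autoImplicit false

namespace Pool.Agent.Results.MP_f3dc73_nt.ZeroOneLaw

open Filter Topology Module
open Pool.Agent.J4.H42.MZ

/-- The multiple zeta value `ζ(n_1, …, n_r)`, the sum over `0 < k_1 < … < k_r` of
`k_1 ^ (-n_1) ⋯ k_r ^ (-n_r)`. -/
noncomputable def mzv (n : List ℕ) : ℝ :=
  ∑' k : {k : Fin n.length → ℕ // StrictMono k ∧ ∀ i, 0 < k i},
    ∏ i, (((k.1 i : ℕ) : ℝ) ^ n.get i)⁻¹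

/-- The rational span of the multiple zeta values of weight `w`. -/
noncomputable def Z (w : ℕ) : Submodule ℚ ℝ :=
  Submodule.span ℚ {x : ℝ | ∃ n : List ℕ, (∀ a ∈ n, 1 ≤ a) ∧ (∀ a ∈ n.getLast?, 2 ≤ a) ∧
    n.sum = w ∧ x = mzv n}

lemma hoffman_mem (k : ℕ) (n : List ℕ) (hn : IsHoffman k n) : mzv n ∈ Z k := by
  refine Submodule.subset_span ⟨n, fun a ha => ?_, fun a ha => ?_, hn.2, rfl⟩
  · rcases hn.1 a ha with h | h <;> omega
  · rcases hn.1 a (List.mem_of_getLast? ha) with h | h <;> omega

/-- `dim Z_k`. -/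
noncomputable def d (k : ℕ) : ℕ := finrank ℚ (Z k)

/-- `a k = dim A_k`. -/
noncomputable def adim (A : ℕ → Submodule ℚ HH) (k : ℕ) : ℕ := finrank ℚ (A k)

/-- The upper limit of `f k / g k`. -/
noncomputable def upper (f g : ℕ → ℝ) : ℝ := limsup (fun k => f k / g k) atTop

/-- There is a surjective homomorphism of graded algebras from `H` onto `⨁ Z k`. -/
def HasSurj : Prop := ∃ ψ : HH →ₗ[ℚ] ℝ, IsSurjection Z ψ

/-- The Hoffman elements of weight `k` are linearly independent. -/
def Independent (k : ℕ) : Prop :=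
  LinearIndependent ℚ fun n : {n : List ℕ // IsHoffman k n} => mzv n

/-- The Hoffman elements span. -/
def Spanned : Prop := ∀ k, Z k ≤ Submodule.span ℚ (mzv '' {n | IsHoffman k n})

/-- (1) Conditions on the dimensions and on the Hoffman elements. -/
def Equivalences : Prop :=
  List.TFAE [GradedIso Z,
    HasSurj ∧ {k | d k = D k}.Infinite,
    HasSurj ∧ upper (fun k => d k) (fun k => D k) = 1] ∧
  (HasSurj → {k | Independent k}.Infinite → GradedIso Z) ∧
  (Spanned → GradedIso Z → ∀ k, Independent k)

/-- (2) The same modulo nonzero numbers `z ∈ Z_m`. -/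
def Modulo : Prop :=
  ∀ (m : ℕ) (z : ℝ), 2 ≤ m → z ∈ Z m → z ≠ 0 → List.TFAE [GradedIso Z,
    HasSurj ∧ {k | dimMod Z m z k + D k = D (k + m)}.Infinite,
    HasSurj ∧ upper (fun k => dimMod Z m z k) (fun k => (D (k + m) : ℝ) - D k) = 1]

/-- (3) The cost of a relation of weight `e`. -/
def Cost : Prop :=
  HasSurj → ∃ ρ : ℝ, 1 < ρ ∧ ρ ^ 3 = ρ + 1 ∧ ∀ e, d e < D e →
    (∀ k, d (k + e) + D k ≤ D (k + e)) ∧ upper (fun k => d k) (fun k => D k) ≤ 1 - (ρ ^ e)⁻¹

/-- (4) Graded subalgebras of `H`. -/
def Subalgebras : Prop :=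
  ∀ ψ : HH →ₗ[ℚ] ℝ, IsSurjection Z ψ → ∀ A : ℕ → Submodule ℚ HH, IsSub A →
    ∀ e, imdim ψ A e < adim A e →
      (∀ k, imdim ψ A (k + e) + adim A k ≤ adim A (k + e)) ∧
      (∀ lam : ℝ, 1 ≤ lam → Tendsto (fun k => (adim A (k + 1) : ℝ) / adim A k) atTop (𝓝 lam) →
        upper (fun k => imdim ψ A k) (fun k => adim A k) ≤ 1 - (lam ^ e)⁻¹) ∧
      ((∀ θ : ℝ, 1 < θ → ∀ᶠ k in atTop, (adim A k : ℝ) ≤ θ ^ k) →
        ∀ c : ℝ, 0 < c → ∃ᶠ k in atTop, (imdim ψ A k : ℝ) < c * adim A k)

theorem GradedIso.hasSurj (h : GradedIso Z) : HasSurj := by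
  obtain ⟨Φ, h1, h2, h3⟩ := h
  exact ⟨Φ, h1, h2, fun w => (h3 w).1⟩

theorem iso_of_independent (hs : HasSurj) (hinf : {k | Independent k}.Infinite) :
    GradedIso Z := by
  obtain ⟨ψ, hψ⟩ := hs
  rw [iso_iff_infinite hψ]
  refine hinf.mono fun k hk => ?_
  have hk' : LinearIndependent ℚ fun n : {n : List ℕ // IsHoffman k n} => mzv n := hk
  have hfd := hψ.finite k
  have h1 : LinearIndependent ℚ
      (fun n : {n : List ℕ // IsHoffman k n} => (⟨mzv n, hoffman_mem k n n.2⟩ : Z k)) := by
    refine LinearIndependent.of_comp (Z k).subtype ?_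
    exact hk'
  have h2 := h1.fintype_card_le_finrank
  rw [card_hoffman] at h2
  have h3 := hψ.add_eq k
  change finrank ℚ (Z k) = D k
  omega

theorem independent_of_iso (hB : Spanned) (h : GradedIso Z) (k : ℕ) : Independent k := by
  change LinearIndependent ℚ fun n : {n : List ℕ // IsHoffman k n} => mzv n
  rw [linearIndependent_iff_card_eq_finrank_span, card_hoffman, Set.finrank, ← dims_of_iso h k]
  have h1 : Set.range (fun n : {n : List ℕ // IsHoffman k n} => mzv n) =
      mzv '' {n | IsHoffman k n} := by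
    ext x
    constructor
    · rintro ⟨⟨n, hn⟩, rfl⟩
      exact ⟨n, hn, rfl⟩
    · rintro ⟨n, hn, rfl⟩
      exact ⟨⟨n, hn⟩, rfl⟩
  rw [h1]
  have h2 : Submodule.span ℚ (mzv '' {n | IsHoffman k n}) = Z k := by
    refine le_antisymm ?_ (hB k)
    rw [Submodule.span_le]
    rintro _ ⟨n, hn, rfl⟩
    exact hoffman_mem k n hn
  rw [h2]

theorem result : Equivalences ∧ Modulo ∧ Cost ∧ Subalgebras := by
  refine ⟨⟨?_, iso_of_independent, independent_of_iso⟩, ?_, ?_, ?_⟩
  · tfae_have 1 → 2 := fun h => by
      obtain ⟨ψ, hψ⟩ := GradedIso.hasSurj h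
      exact ⟨⟨ψ, hψ⟩, (iso_iff_infinite hψ).1 h⟩
    tfae_have 2 → 1 := by
      rintro ⟨⟨ψ, hψ⟩, h⟩
      exact (iso_iff_infinite hψ).2 h
    tfae_have 1 → 3 := fun h => by
      obtain ⟨ψ, hψ⟩ := GradedIso.hasSurj h
      exact ⟨⟨ψ, hψ⟩, (iso_iff_limsup hψ).1 h⟩
    tfae_have 3 → 1 := by
      rintro ⟨⟨ψ, hψ⟩, h⟩
      exact (iso_iff_limsup hψ).2 h
    tfae_finish
  · intro m z hm hz hz0
    tfae_have 1 → 2 := fun h => by
      obtain ⟨ψ, hψ⟩ := GradedIso.hasSurj h
      exact ⟨⟨ψ, hψ⟩, (iso_iff_mod hψ hm hz hz0).1 h⟩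
    tfae_have 2 → 1 := by
      rintro ⟨⟨ψ, hψ⟩, h⟩
      exact (iso_iff_mod hψ hm hz hz0).2 h
    tfae_have 1 → 3 := fun h => by
      obtain ⟨ψ, hψ⟩ := GradedIso.hasSurj h
      exact ⟨⟨ψ, hψ⟩, (iso_iff_mod_limsup hψ hm hz hz0).1 h⟩
    tfae_have 3 → 1 := by
      rintro ⟨⟨ψ, hψ⟩, h⟩
      exact (iso_iff_mod_limsup hψ hm hz hz0).2 h
    tfae_finish
  · rintro ⟨ψ, hψ⟩
    obtain ⟨ρ, h1, h2, h3⟩ := exists_rho
    refine ⟨ρ, h1, h3, fun e he => ?_⟩
    obtain ⟨r, hr, hr0⟩ := rel_of_lt hψ he
    exact ⟨gap_rel hψ hr hr0, limsup_rel hψ h1 h2 h3 hr hr0⟩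
  · intro ψ hψ A hA e he
    have hgap := sub_gap hψ A hA he
    refine ⟨hgap, fun lam hlam hlim => ?_, fun hsub c hc => ?_⟩
    · exact limsup_le_of_gap (a := fun k => finrank ℚ (A k)) (b := fun k => imdim ψ A k) hgap
        (ratio_pow (a := fun k => finrank ℚ (A k)) hlam hlim e)
    · exact freq_of_gap (a := fun k => finrank ℚ (A k)) (b := fun k => imdim ψ A k)
        (pos_of_lt hψ A hA he) hgap he hsub hc

end Pool.Agent.Results.MP_f3dc73_nt.ZeroOneLaw
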